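import Pool.Agent.H518R3.RD.Defs

/-!
ROOM GEN, block 5, task AB: abelian finite piece.
-/

set_option autoImplicit false

open scoped ComplexOrder InnerProductSpace Topology
open Filter

noncomputable section

namespace Pool.Agent.H518R3.RD.T_AB

open H759R2.Kad H710R2.DP H917R2.Tr Pool.Agent.H735G Pool.Agent.H467F Pool.Agent.H518R3.RD

section basic

variable {H : Type} [NormedAddCommGroup H] [InnerProductSpace ℂ H] [CompleteSpace H]

theorem eq_zero_of_star_mul {v : H →L[ℂ] H} (h : star v * v = 0) : v = 0 := by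
  have h1 := CStarRing.norm_star_mul_self (x := v)
  rw [h, norm_zero] at h1
  have h2 : ‖v‖ = 0 := by nlinarith [norm_nonneg v]
  exact norm_eq_zero.1 h2

theorem norm_pr_le {p : H →L[ℂ] H} (hp : IsPr p) : ‖p‖ ≤ 1 := by
  have h1 := CStarRing.norm_star_mul_self (x := p)
  rw [hp.1, hp.2] at h1
  by_contra h
  push Not at h
  nlinarith

theorem mul_of_ini {v r : H →L[ℂ] H} (h : star v * v = r) (hr : IsPr r) : v * r = v := by
  have h1 : star (v - v * r) * (v - v * r) = 0 := by
    rw [star_sub, star_mul, hr.1, sub_mul, mul_sub, mul_sub, h, ← mul_assoc (star v) v r, h,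
      mul_assoc r (star v) v, h, mul_assoc r (star v) (v * r), ← mul_assoc (star v) v r, h, hr.2,
      hr.2]
    simp
  have h2 := eq_zero_of_star_mul h1
  rw [sub_eq_zero] at h2
  exact h2.symm

end basic

theorem r_AB (hV : V_abel) (hF : R_FINI) (hA : R_ABG) (hM : R_MAT) : R_AB := by
  intro H _ _ _ _ M z hz hfin e he hep hze hab hene
  obtain ⟨p, hp, hp0, hpz, I, v, hI, hv1, hv2, hv3, hv4⟩ := hV H M e he hep hene hab
  have hzp : z * p = p := hpz z hz hze
  have hpe : p * e = e * p := hp.2.2 e he
  have hr : IsPr (p * e) := by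
    refine ⟨?_, ?_⟩
    · rw [star_mul, hep.1, hp.1.1, hpe]
    · rw [mul_assoc, ← mul_assoc e p e, ← hpe, mul_assoc p e e, hep.2, ← mul_assoc, hp.1.2]
  have hrM : p * e ∈ M := mul_mem hp.2.1 he
  have hr0 : p * e ≠ 0 := by
    intro h0
    apply hp0
    have h1 : ∀ i, (1 : H →L[ℂ] H) * v i = 0 := by
      intro i
      rw [one_mul]
      exact eq_zero_of_star_mul (by rw [(hv1 i).2, h0])
    have := hv4 1 h1
    rwa [one_mul] at this
  have hfinI : Finite I := by
    by_contra hinf
    rw [not_finite_iff_infinite] at hinf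
    apply hr0
    refine hF H M z (p * e) (fun n => v (Infinite.natEmbedding I n)) hz hfin hr ?_ ?_
    · intro n
      refine ⟨(hv1 _).1, ?_, (hv1 _).2⟩
      have h1 := hv3 (Infinite.natEmbedding I n)
      calc z * v (Infinite.natEmbedding I n)
          = z * (p * v (Infinite.natEmbedding I n)) := by rw [h1]
        _ = p * v (Infinite.natEmbedding I n) := by rw [← mul_assoc, hzp]
        _ = v (Infinite.natEmbedding I n) := h1
    · intro i j hij
      exact hv2 _ _ fun h => hij ((Infinite.natEmbedding I).injective h)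
  have : Fintype I := Fintype.ofFinite I
  obtain ⟨n, hn⟩ : ∃ n, Fintype.card I = n + 1 :=
    ⟨Fintype.card I - 1, by have := Fintype.card_pos (α := I); omega⟩
  let φ : Fin (n + 1) ≃ I := (Fintype.equivFinOfCardEq hn).symm
  have habr : IsAb M (p * e) := by
    intro x hx ε hε
    obtain ⟨z', hz', hb⟩ := hab x hx ε hε
    refine ⟨z', hz', ?_⟩
    have h1 : p * x = x * p := hp.2.2 x hx
    have h2 : z' * p = p * z' := hz'.2 p hp.2.1
    have h3 : p * e * x * (p * e) - z' * (p * e) = p * (e * x * e - z' * e) := by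
      rw [mul_sub]
      congr 1
      · calc p * e * x * (p * e) = p * e * (x * p) * e := by simp only [mul_assoc]
          _ = p * e * (p * x) * e := by rw [h1]
          _ = p * (e * p) * x * e := by simp only [mul_assoc]
          _ = p * (p * e) * x * e := by rw [hpe]
          _ = (p * p) * e * x * e := by simp only [mul_assoc]
          _ = p * (e * x * e) := by rw [hp.1.2]; simp only [mul_assoc]
      · rw [← mul_assoc, h2, mul_assoc]
    rw [h3]
    calc ‖p * (e * x * e - z' * e)‖ ≤ ‖p‖ * ‖e * x * e - z' * e‖ := norm_mul_le _ _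
      _ ≤ 1 * ε := mul_le_mul (norm_pr_le hp.1) hb (norm_nonneg _) zero_le_one
      _ = ε := one_mul _
  obtain ⟨h, hhM, hhs, hhn, hhe, hhx⟩ := hA H M (p * e) hrM hr habr
  have hpv : ∀ i, star (v i) * p = star (v i) := by
    intro i
    have := congrArg star (hv3 i)
    rwa [star_mul, hp.1.1] at this
  have hsum : ∑ i, v i * star (v i) = p := by
    have h1 : ∀ j, (p - ∑ i, v i * star (v i)) * v j = 0 := by
      intro j
      rw [sub_mul, hv3, Finset.sum_mul, Finset.sum_eq_single j]
      · rw [mul_assoc, (hv1 j).2, mul_of_ini (hv1 j).2 hr, sub_self]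
      · intro i _ hij
        rw [mul_assoc, hv2 i j hij, mul_zero]
      · intro hj
        exact absurd (Finset.mem_univ j) hj
    have h2 := hv4 _ h1
    rw [sub_mul, hp.1.2, Finset.sum_mul] at h2
    have h3 : ∑ i, v i * star (v i) * p = ∑ i, v i * star (v i) :=
      Finset.sum_congr rfl fun i _ => by rw [mul_assoc, hpv]
    rw [h3, sub_eq_zero] at h2
    exact h2.symm
  refine ⟨p, hp, hp0, hzp, ?_⟩
  refine hM H M p (p * e) h n (fun j => v (φ j)) hp hr hrM (fun j => hv1 _) ?_ ?_ hhM hhs hhn
    hhe hhx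
  · intro i j hij
    exact hv2 _ _ fun h => hij (φ.injective h)
  · rw [← hsum]
    exact Equiv.sum_comp φ (fun i => v i * star (v i))

end Pool.Agent.H518R3.RD.T_AB
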